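import Pool.Agent.E8helper78.FL.Basic

/-!
# Flagness of the complexes of cluster parking functions from the Helly property
-/

set_option autoImplicit false

open scoped RealInnerProductSpace NNReal
open Pool.Agent.E8helper78.FL

namespace Pool.Agent.E8helper14.FL

variable {V : Type} [NormedAddCommGroup V] [InnerProductSpace ℝ V]

/-! ### the dimension of the moved space -/

/-- the dimension of the moved space -/
noncomputable def cd (w : V ≃ₗᵢ[ℝ] V) : ℕ := Module.finrank ℝ (Mov w)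

lemma Mov_mul_le (w w' : V ≃ₗᵢ[ℝ] V) : Mov (w * w') ≤ Mov w ⊔ Mov w' := by
  intro x hx
  obtain ⟨u, rfl⟩ := mem_Mov.1 hx
  rw [Submodule.mem_sup]
  refine ⟨w' u - w (w' u), mem_Mov.2 ⟨w' u, rfl⟩, u - w' u, mem_Mov.2 ⟨u, rfl⟩, ?_⟩
  rw [mul_apply']
  abel

lemma cd_mul_le [FiniteDimensional ℝ V] (w w' : V ≃ₗᵢ[ℝ] V) : cd (w * w') ≤ cd w + cd w' :=
  (Submodule.finrank_mono (Mov_mul_le w w')).trans
    (Submodule.finrank_add_le_finrank_add_finrank _ _)

lemma cd_one : cd (1 : V ≃ₗᵢ[ℝ] V) = 0 := by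
  have h : Mov (1 : V ≃ₗᵢ[ℝ] V) = ⊥ := by
    rw [eq_bot_iff]
    intro x hx
    obtain ⟨u, rfl⟩ := mem_Mov.1 hx
    rw [Submodule.mem_bot]
    exact sub_self u
  unfold cd
  rw [h, finrank_bot]

lemma cd_rf {a : V} (ha : ‖a‖ = 1) : cd (rf a) ≤ 1 := by
  have h : Mov (rf a) ≤ Submodule.span ℝ {a} := by
    intro x hx
    obtain ⟨u, rfl⟩ := mem_Mov.1 hx
    rw [rf_apply ha, Submodule.mem_span_singleton]
    exact ⟨2 * ⟪a, u⟫, by abel⟩
  have h0 : a ≠ 0 := by
    rintro rfl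
    simp at ha
  have := Submodule.finrank_mono h
  rw [finrank_span_singleton h0] at this
  exact this

lemma cd_pr [FiniteDimensional ℝ V] {L : List V} (hL : ∀ a ∈ L, ‖a‖ = 1) :
    cd (pr L) ≤ L.length := by
  induction L with
  | nil => rw [pr_nil, cd_one]; simp
  | cons a L ih =>
    rw [pr_cons, List.length_cons]
    have h1 := cd_mul_le (rf a) (pr L)
    have h2 := cd_rf (hL a (by simp))
    have h3 := ih (fun b hb => hL b (by simp [hb]))
    omega

lemma cd_conj_le [FiniteDimensional ℝ V] (g w : V ≃ₗᵢ[ℝ] V) : cd (g * w * g⁻¹) ≤ cd w := by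
  have h : Mov (g * w * g⁻¹) ≤ (Mov w).map (g.toLinearEquiv : V →ₗ[ℝ] V) := by
    intro x hx
    obtain ⟨u, rfl⟩ := mem_Mov.1 hx
    rw [Submodule.mem_map]
    refine ⟨g⁻¹ u - w (g⁻¹ u), mem_Mov.2 ⟨_, rfl⟩, ?_⟩
    show g (g⁻¹ u - w (g⁻¹ u)) = u - g (w (g⁻¹ u))
    rw [map_sub, apply_inv]
  exact (Submodule.finrank_mono h).trans (Submodule.finrank_map_le _ _)

lemma cd_inv_le [FiniteDimensional ℝ V] (w : V ≃ₗᵢ[ℝ] V) : cd w⁻¹ ≤ cd w := by
  have h : Mov w⁻¹ ≤ Mov w := by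
    intro x hx
    obtain ⟨u, rfl⟩ := mem_Mov.1 hx
    refine mem_Mov.2 ⟨-(w⁻¹ u), ?_⟩
    rw [map_neg, apply_inv]
    abel
  exact Submodule.finrank_mono h

lemma cd_le_inv [FiniteDimensional ℝ V] (w : V ≃ₗᵢ[ℝ] V) : cd w ≤ cd w⁻¹ := by
  have := cd_inv_le w⁻¹
  rwa [inv_inv] at this

/-! ### words -/

lemma pr_reverse (L : List V) : pr L.reverse = (pr L)⁻¹ := by
  induction L with
  | nil => simp
  | cons a L ih =>
    rw [List.reverse_cons, pr_append, pr_single, ih, pr_cons, mul_inv_rev, rf_inv]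

lemma exists_word {Φ : Set V} {w : V ≃ₗᵢ[ℝ] V} (hw : w ∈ Wg Φ) :
    ∃ l : List V, (∀ a ∈ l, a ∈ Φ) ∧ pr l = w := by
  unfold Wg at hw
  induction hw using Subgroup.closure_induction with
  | mem x hx =>
    obtain ⟨b, hb, rfl⟩ := hx
    exact ⟨[b], by simpa using hb, pr_single b⟩
  | one => exact ⟨[], by simp, rfl⟩
  | mul x y _ _ hx hy =>
    obtain ⟨l, hl, rfl⟩ := hx
    obtain ⟨l', hl', rfl⟩ := hy
    refine ⟨l ++ l', fun a ha => ?_, pr_append l l'⟩
    rcases List.mem_append.1 ha with h | h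
    · exact hl a h
    · exact hl' a h
  | inv x _ hx =>
    obtain ⟨l, hl, rfl⟩ := hx
    exact ⟨l.reverse, fun a ha => hl a (List.mem_reverse.1 ha), pr_reverse l⟩

lemma cd_le_ell [FiniteDimensional ℝ V] {Φ : Set V} (hΦ : IsRoots Φ) {w : V ≃ₗᵢ[ℝ] V}
    (hw : w ∈ Wg Φ) : cd w ≤ ell Φ w := by
  have hne : {k : ℕ | ∃ l : List V, l.length = k ∧ (∀ a ∈ l, a ∈ Φ) ∧ pr l = w}.Nonempty := by
    obtain ⟨l, hl, h⟩ := exists_word hw
    exact ⟨l.length, l, rfl, hl, h⟩
  obtain ⟨l, h1, h2, h3⟩ := Nat.sInf_mem hne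
  unfold ell
  rw [← h1, ← h3]
  exact cd_pr fun a ha => hΦ.unit a (h2 a ha)

lemma ell_le {Φ : Set V} {L : List V} (hL : ∀ a ∈ L, a ∈ Φ) : ell Φ (pr L) ≤ L.length :=
  Nat.sInf_le ⟨L, rfl, hL, rfl⟩

/-! ### products of orthogonal reflections -/

lemma pr_fix {a : V} {L : List V} (hL : ∀ b ∈ L, ‖b‖ = 1) (h : ∀ b ∈ L, ⟪b, a⟫ = 0) :
    pr L a = a := by
  induction L with
  | nil => rfl
  | cons b L ih =>
    rw [pr_cons_apply, ih (fun d hd => hL d (by simp [hd])) (fun d hd => h d (by simp [hd]))]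
    exact rf_fix (hL b (by simp)) (h b (by simp))

lemma pr_invol {L : List V} (hL : ∀ b ∈ L, ‖b‖ = 1)
    (h : L.Pairwise (fun a b => ⟪a, b⟫ = 0)) : pr L * pr L = 1 := by
  induction L with
  | nil => simp
  | cons a L ih =>
    rw [List.pairwise_cons] at h
    have h1 : pr L a = a := pr_fix (fun d hd => hL d (by simp [hd]))
      (fun d hd => by rw [real_inner_comm]; exact h.1 d hd)
    have h2 := rf_conj (hL a (by simp)) (pr L)
    rw [h1] at h2
    have h3 : rf a * pr L = pr L * rf a := by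
      rw [eq_mul_inv_iff_mul_eq] at h2
      exact h2
    have h4 := ih (fun d hd => hL d (by simp [hd])) h.2
    rw [pr_cons]
    calc rf a * pr L * (rf a * pr L) = rf a * (pr L * rf a) * pr L := by group
      _ = rf a * (rf a * pr L) * pr L := by rw [h3]
      _ = (rf a * rf a) * (pr L * pr L) := by group
      _ = 1 := by rw [rf_mul, h4, one_mul]

/-! ### the Coxeter element -/

section main

variable {Φ : Set V} {A B : List V} (hB : Bip Φ A B)
include hB

lemma bip_fin : FiniteDimensional ℝ V := by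
  have h : {a | a ∈ A ++ B}.Finite := List.finite_toSet (A ++ B)
  refine ⟨⟨h.toFinset, ?_⟩⟩
  rw [Set.Finite.coe_toFinset]
  exact hB.span

lemma bip_std : Std Φ (A ++ B) :=
  ⟨hB.roots, hB.nodup, hB.mem, hB.indep, hB.span, hB.pos⟩

lemma bip_length [FiniteDimensional ℝ V] : (A ++ B).length ≤ Module.finrank ℝ V := by
  classical
  have h1 : LinearIndependent ℝ (fun x : ((A ++ B).toFinset : Finset V) => (x : V)) := by
    have := hB.indep.comp
      (fun x : ((A ++ B).toFinset : Finset V) =>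
        (⟨(x : V), List.mem_toFinset.1 x.2⟩ : {a // a ∈ A ++ B}))
      (fun x y h => by
        apply Subtype.ext
        simpa using h)
    exact this
  have h2 := h1.finset_card_le_finrank
  rwa [List.toFinset_card_of_nodup hB.nodup] at h2

lemma bip_A : ∀ a ∈ A, a ∈ Φ := fun a ha => hB.mem a (List.mem_append_left _ ha)

lemma bip_B : ∀ a ∈ B, a ∈ Φ := fun a ha => hB.mem a (List.mem_append_right _ ha)

lemma prA : pr A * pr A = 1 :=
  pr_invol (fun b hb => hB.roots.unit b (bip_A hB b hb)) hB.orthA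

lemma prB : pr B * pr B = 1 :=
  pr_invol (fun b hb => hB.roots.unit b (bip_B hB b hb)) hB.orthB

lemma prA_mem : pr A ∈ Wg Φ := pr_mem (bip_A hB)

variable {g : V → V} (hg : ∀ x, g x - pr (A ++ B) (g x) = x)
include hg

omit hB in
lemma inner_g {ρ : V} (hρ : ‖ρ‖ = 1) : ⟪ρ, g ρ⟫ = 1 / 2 := by
  have h1 : pr (A ++ B) (g ρ) = g ρ - ρ := by
    have := hg ρ
    rw [sub_eq_iff_eq_add] at this
    rw [eq_sub_iff_add_eq, add_comm]
    exact this.symm
  have h2 : ‖g ρ - ρ‖ = ‖g ρ‖ := by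
    rw [← h1]
    exact (pr (A ++ B)).norm_map _
  have h3 := norm_sub_sq_real (g ρ) ρ
  rw [h2, hρ, real_inner_comm] at h3
  linarith

omit hB hg in
lemma und_single {a : V} (ha : ‖a‖ = 1) : pr A * rf a * pr B = rf (pr A a) * pr (A ++ B) := by
  rw [rf_conj ha, pr_append]
  group

omit hB in
/-- the fixed vectors of `c_• t_α c_∘` -/
lemma fix_single {a : V} (ha : ‖a‖ = 1)
    (hinj : ∀ u, pr (A ++ B) u = u → u = 0) (u : V) :
    (pr A * rf a * pr B) u = u ↔ ∃ t : ℝ, u = t • g (pr A a) := by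
  have hρ : ‖pr A a‖ = 1 := by rw [(pr A).norm_map, ha]
  rw [und_single ha]
  have hc : pr (A ++ B) (g (pr A a)) = g (pr A a) - pr A a := by
    have := hg (pr A a)
    rw [sub_eq_iff_eq_add] at this
    rw [eq_sub_iff_add_eq, add_comm]
    exact this.symm
  constructor
  · intro h
    have h1 : pr (A ++ B) u = rf (pr A a) u := by
      have h2 : rf (pr A a) (pr (A ++ B) u) = u := h
      rw [← h2, rf_rf]
      exact congrArg _ h2
    rw [rf_apply hρ] at h1
    refine ⟨2 * ⟪pr A a, u⟫, ?_⟩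
    rw [← sub_eq_zero]
    apply hinj
    rw [map_sub, map_smul, h1, hc, smul_sub]
    abel
  · rintro ⟨t, rfl⟩
    rw [map_smul]
    congr 1
    show rf (pr A a) (pr (A ++ B) (g (pr A a))) = _
    rw [hc, rf_apply hρ, inner_sub_right, inner_g hg hρ, real_inner_self_eq_norm_sq, hρ]
    norm_num

/-- the dimension count: the fixed vector of `c_• t_α c_∘` is fixed by `c_• (∏ f) c_∘`, `α` in `f` -/
lemma fix_und (hinj : ∀ u, pr (A ++ B) u = u → u = 0) {l : List (V × ℕ)} {f : Finset (V × ℕ)}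
    (hl : Listing Φ A B f l) (hΦl : ∀ y ∈ f, y.1 ∈ Φ) {x : V × ℕ} (hx : x ∈ f) :
    und A B l (g (pr A x.1)) = g (pr A x.1) := by
  have := bip_fin hB
  obtain ⟨a, i⟩ := x
  have haΦ : a ∈ Φ := hΦl _ hx
  have ha : ‖a‖ = 1 := hB.roots.unit a haΦ
  have hxl : (a, i) ∈ l := (hl.mem _).2 hx
  obtain ⟨L1, L2, hL⟩ := List.append_of_mem (List.mem_map_of_mem (f := Prod.fst) hxl)
  have hlen : l.length = L1.length + L2.length + 1 := by
    have := congrArg List.length hL
    rw [List.length_map, List.length_append, List.length_cons] at this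
    omega
  have hunit : ∀ b ∈ l.map Prod.fst, ‖b‖ = 1 := by
    intro b hb
    obtain ⟨y, hy, rfl⟩ := List.mem_map.1 hb
    exact hB.roots.unit _ (hΦl y ((hl.mem y).1 hy))
  have hu1 : ∀ b ∈ L1, ‖b‖ = 1 := fun b hb => hunit b (by rw [hL]; simp [hb])
  have hu2 : ∀ b ∈ L2, ‖b‖ = 1 := fun b hb => hunit b (by rw [hL]; simp [hb])
  set u := pr (l.map Prod.fst) with hu
  have huw : u = pr L1 * (rf a * pr L2) := by rw [hu, hL, pr_append, pr_cons]
  set w1 := pr A * rf a * pr B with hw1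
  set w' := und A B l with hw'
  have hw'' : w' = pr A * u * pr B := rfl
  -- the first factor
  have h1 : cd (w1 * w'⁻¹) ≤ L1.length + L2.length := by
    have e1 : w1 * w'⁻¹ = pr A * (rf a * u⁻¹) * (pr A)⁻¹ := by
      rw [hw1, hw'']; group
    have e2 : (rf a * u⁻¹)⁻¹ = pr L1 * (rf a * pr L2 * (rf a)⁻¹) := by
      rw [mul_inv_rev, inv_inv, rf_inv, huw]; group
    have c1 := cd_conj_le (pr A) (rf a * u⁻¹)
    have c2 := cd_le_inv (rf a * u⁻¹)
    have c3 := cd_mul_le (pr L1) (rf a * pr L2 * (rf a)⁻¹)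
    have c4 := cd_conj_le (rf a) (pr L2)
    have c5 := cd_pr hu1
    have c6 := cd_pr hu2
    rw [e1]
    rw [e2] at c2
    omega
  -- the second factor
  have h2 : cd w' + l.length ≤ Module.finrank ℝ V := by
    have e1 : w'⁻¹ = (pr B)⁻¹ * (u⁻¹ * cox A B) * ((pr B)⁻¹)⁻¹ := by
      have hA2 : (pr A)⁻¹ = pr A := inv_eq_of_mul_eq_one_left (prA hB)
      have hB2 := prB hB
      rw [hw'']
      unfold cox
      calc (pr A * u * pr B)⁻¹ = (pr B)⁻¹ * (u⁻¹ * (pr A)⁻¹) := by group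
        _ = (pr B)⁻¹ * (u⁻¹ * pr A) * 1 := by rw [hA2]; group
        _ = (pr B)⁻¹ * (u⁻¹ * pr A) * (pr B * pr B) := by rw [hB2]
        _ = (pr B)⁻¹ * (u⁻¹ * (pr A * pr B)) * ((pr B)⁻¹)⁻¹ := by group
    have c1 := cd_le_inv w'
    rw [e1] at c1
    have c2 := cd_conj_le ((pr B)⁻¹) (u⁻¹ * cox A B)
    have hmem : u⁻¹ * cox A B ∈ Wg Φ := by
      refine mul_mem (inv_mem hl.nc.1) ?_
      exact mul_mem (pr_mem (bip_A hB)) (pr_mem (bip_B hB))
    have c3 := cd_le_ell hB.roots hmem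
    have c4 := hl.nc.2
    have c5 := hl.red
    rw [← hu] at c4 c5
    have c6 : ell Φ (cox A B) ≤ (A ++ B).length := by
      have : cox A B = pr (A ++ B) := (pr_append A B).symm
      rw [this]
      exact ell_le hB.mem
    have c7 := bip_length hB
    omega
  -- the product
  have hρ : ‖pr A a‖ = 1 := by rw [(pr A).norm_map, ha]
  have hg0 : g (pr A a) ≠ 0 := by
    intro h0
    have := inner_g hg hρ
    rw [h0, inner_zero_right] at this
    norm_num at this
  have h3 : cd w1 + 1 = Module.finrank ℝ V := by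
    have r := LinearMap.finrank_range_add_finrank_ker
      ((LinearMap.id : V →ₗ[ℝ] V) - (w1.toLinearEquiv : V →ₗ[ℝ] V))
    have hk : LinearMap.ker ((LinearMap.id : V →ₗ[ℝ] V) - (w1.toLinearEquiv : V →ₗ[ℝ] V)) =
        Submodule.span ℝ {g (pr A a)} := by
      ext y
      rw [LinearMap.mem_ker, Submodule.mem_span_singleton]
      have e : ((LinearMap.id : V →ₗ[ℝ] V) - (w1.toLinearEquiv : V →ₗ[ℝ] V)) y = y - w1 y := rfl
      rw [e, sub_eq_zero]
      constructor
      · intro h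
        obtain ⟨t, ht⟩ := (fix_single hg ha hinj y).1 h.symm
        exact ⟨t, ht.symm⟩
      · rintro ⟨t, ht⟩
        exact ((fix_single hg ha hinj y).2 ⟨t, ht.symm⟩).symm
    rw [hk, finrank_span_singleton hg0] at r
    exact r
  have hprod : w1 = (w1 * w'⁻¹) * w' := by group
  have h4 := Submodule.finrank_sup_add_finrank_inf_eq (Mov (w1 * w'⁻¹)) (Mov w')
  have h5 : cd w1 ≤ Module.finrank ℝ (Mov (w1 * w'⁻¹) ⊔ Mov w' : Submodule ℝ V) := by
    have := Submodule.finrank_mono (Mov_mul_le (w1 * w'⁻¹) w')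
    rw [← hprod] at this
    exact this
  have h6 : Module.finrank ℝ (Mov (w1 * w'⁻¹) ⊓ Mov w' : Submodule ℝ V) = 0 := by
    unfold cd at h1 h2 h3 h5
    omega
  have h7 : (Mov (w1 * w'⁻¹) ⊓ Mov w' : Submodule ℝ V) = ⊥ := Submodule.finrank_eq_zero.1 h6
  have h8 : w1 (g (pr A a)) = g (pr A a) := (fix_single hg ha hinj _).2 ⟨1, (one_smul _ _).symm⟩
  have h9 : g (pr A a) - w' (g (pr A a)) ∈ (Mov (w1 * w'⁻¹) ⊓ Mov w' : Submodule ℝ V) := by
    refine ⟨?_, mem_Mov.2 ⟨_, rfl⟩⟩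
    refine mem_Mov.2 ⟨-(w' (g (pr A a))), ?_⟩
    have e : (w1 * w'⁻¹) (-(w' (g (pr A a)))) = -(g (pr A a)) := by
      rw [map_neg, mul_apply', inv_apply, h8]
    rw [e]
    abel
  rw [h7, Submodule.mem_bot, sub_eq_zero] at h9
  exact h9.symm

/-- the parabolic subgroup of a vertex -/
lemma Wp_single (hinj : ∀ u, pr (A ++ B) u = u → u = 0) {a : V} (ha : a ∈ Φ)
    (w : V ≃ₗᵢ[ℝ] V) :
    w ∈ Wp Φ (pr A * rf a * pr B) ↔ w ∈ Wg Φ ∧ w (g (pr A a)) = g (pr A a) := by
  have h1 := hB.roots.unit a ha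
  constructor
  · rintro ⟨h2, h3⟩
    exact ⟨h2, h3 _ ((fix_single hg h1 hinj _).2 ⟨1, (one_smul _ _).symm⟩)⟩
  · rintro ⟨h2, h3⟩
    refine ⟨h2, fun v hv => ?_⟩
    obtain ⟨t, rfl⟩ := (fix_single hg h1 hinj _).1 hv
    rw [map_smul, h3]

omit hg in
lemma AP_mem {m : ℕ} {x : V × ℕ} (hx : x ∈ AP Φ A B m) : x.1 ∈ Φ := by
  rcases hx with h | h
  · exact h.1.1
  · have := hB.roots.neg (hB.mem _ h.1)
    rwa [neg_neg] at this

omit hg in
lemma AP_fin (m : ℕ) : (AP Φ A B m).Finite := by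
  refine (hB.roots.fin.prod (Set.finite_Iic (max m 1))).subset ?_
  intro x hx
  refine ⟨AP_mem hB hx, ?_⟩
  rcases hx with h | h
  · exact le_trans h.2.2 (le_max_left _ _)
  · show x.2 ≤ max m 1
    rw [h.2]; exact le_max_right _ _

end main

lemma eq_single {α : Type} {l : List α} {a : α} (h : l.Nodup) (h2 : ∀ x, x ∈ l ↔ x = a) :
    l = [a] := by
  cases l with
  | nil => exact absurd ((h2 a).2 rfl) (by simp)
  | cons b t =>
    have hb : b = a := (h2 b).1 (by simp)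
    subst hb
    have : t = [] := by
      rw [List.eq_nil_iff_forall_not_mem]
      intro c hc
      have : c = b := (h2 c).1 (by simp [hc])
      subst this
      exact (List.nodup_cons.1 h).1 hc
    rw [this]

/-- the elements of the group that move `g ρ` to `v` -/
def Cos (Φ : Set V) (A : List V) (g : V → V) (a : V) (v : V) : Set (V ≃ₗᵢ[ℝ] V) :=
  {w | w ∈ Wg Φ ∧ w (g (pr A a)) = v}

lemma vertex {Φ : Set V} {A B : List V} (hB : Bip Φ A B) {g : V → V}
    (hg : ∀ x, g x - pr (A ++ B) (g x) = x) (hinj : ∀ u, pr (A ++ B) u = u → u = 0)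
    {m : ℕ} {R : V × ℕ → V × ℕ → Prop} {P : V × ℕ → Prop} {L : Finset (V × ℕ) → List (V × ℕ)}
    (hL : ∀ f ∈ Face Φ A B m R, Listing Φ A B f (L f))
    {z : Set (V ≃ₗᵢ[ℝ] V) × Finset (V × ℕ)}
    (hz : z ∈ verts (CPF Φ A B {f | f ∈ Face Φ A B m R ∧ ∀ x ∈ f, P x} L)) :
    ∃ a : V × ℕ, a ∈ AP Φ A B m ∧ P a ∧ z.2 = {a} ∧
      ∃ v : V, z.1 = Cos Φ A g a.1 v ∧ ∃ w ∈ Wg Φ, w (g (pr A a.1)) = v := by
  obtain ⟨⟨hF, w, hw, hz1⟩, hcard⟩ := hz
  obtain ⟨a, ha⟩ := Finset.card_eq_one.1 hcard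
  have haz : a ∈ z.2 := by rw [ha]; simp
  have hAP : a ∈ AP Φ A B m := hF.1.1 a haz
  have hΦ := AP_mem hB hAP
  refine ⟨a, hAP, hF.2 a haz, ha, w (g (pr A a.1)), ?_, w, hw, rfl⟩
  have hl := hL z.2 hF.1
  have hl2 : L z.2 = [a] := by
    refine eq_single hl.nodup fun x => ?_
    rw [hl.mem, ha, Finset.mem_singleton]
  rw [hz1, hl2]
  have hund : und A B [a] = pr A * rf a.1 * pr B := by
    unfold und
    rw [List.map_cons, List.map_nil, pr_single]
  rw [hund]
  ext w'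
  constructor
  · rintro ⟨h, hh, rfl⟩
    have h2 := (Wp_single hB hg hinj hΦ h).1 hh
    refine ⟨mul_mem hw h2.1, ?_⟩
    show w (h (g (pr A a.1))) = _
    rw [h2.2]
  · rintro ⟨h1, h2⟩
    refine ⟨w⁻¹ * w', (Wp_single hB hg hinj hΦ _).2 ⟨mul_mem (inv_mem hw) h1, ?_⟩, by
      show w * (w⁻¹ * w') = w'
      group⟩
    rw [mul_apply', h2, inv_apply]

/-- flagness for the faces with a property of their vertices -/
theorem flag (hH : S_HEL) (hE : S_EEX) {Φ : Set V} {A B : List V} (hB : Bip Φ A B) (m : ℕ)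
    (R : V × ℕ → V × ℕ → Prop) (P : V × ℕ → Prop) (L : Finset (V × ℕ) → List (V × ℕ))
    (hL : ∀ f ∈ Face Φ A B m R, Listing Φ A B f (L f)) :
    IsFlag (CPF Φ A B {f | f ∈ Face Φ A B m R ∧ ∀ x ∈ f, P x} L) := by
  classical
  have := bip_fin hB
  obtain ⟨E, hEc⟩ := hE V Φ (A ++ B) (bip_std hB)
  have hinj : ∀ u, pr (A ++ B) u = u → u = 0 := fun u hu => hEc.inj hu
  choose g hg using hEc.surj
  intro X hX hpair
  set F : Set (Finset (V × ℕ)) := {f | f ∈ Face Φ A B m R ∧ ∀ x ∈ f, P x} with hF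
  set Q := CPF Φ A B F L with hQ
  have hvert : ∀ z ∈ verts Q, ∃ a : V × ℕ, a ∈ AP Φ A B m ∧ P a ∧ z.2 = {a} ∧
      ∃ v : V, z.1 = Cos Φ A g a.1 v ∧ ∃ w ∈ Wg Φ, w (g (pr A a.1)) = v :=
    fun z hz => vertex hB hg hinj hL hz
  -- pairs
  have hpr : ∀ x ∈ X, ∀ y ∈ X, x ≠ y → ∀ a b : V × ℕ, x.2 = {a} → y.2 = {b} →
      a ≠ b ∧ R a b ∧ ∃ w, w ∈ x.1 ∧ w ∈ y.1 := by
    intro x hx y hy hxy a b ha hb
    obtain ⟨z, hz, hXz⟩ := hpair x hx y hy hxy
    have hxz : x ∈ verts Q ∧ le x z := by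
      have : x ∈ ({x, y} : Set _) := by simp
      rw [hXz] at this
      exact this
    have hyz : y ∈ verts Q ∧ le y z := by
      have : y ∈ ({x, y} : Set _) := by simp
      rw [hXz] at this
      exact this
    obtain ⟨hzF, w, hw, hz1⟩ := hz
    have hwz : w ∈ z.1 := by
      rw [hz1]
      exact ⟨1, one_mem _, mul_one w⟩
    have hwx : w ∈ x.1 := hxz.2.2 hwz
    have hwy : w ∈ y.1 := hyz.2.2 hwz
    have hab : a ≠ b := by
      rintro rfl
      obtain ⟨a1, _, _, h1, v1, h2, _⟩ := hvert x hxz.1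
      obtain ⟨a2, _, _, h3, v2, h4, _⟩ := hvert y hyz.1
      have e1 : a = a1 := by
        have := ha.symm.trans h1
        exact Finset.singleton_injective this
      have e2 : a = a2 := by
        have := hb.symm.trans h3
        exact Finset.singleton_injective this
      subst e1
      subst e2
      rw [h2] at hwx
      rw [h4] at hwy
      have : v1 = v2 := hwx.2.symm.trans hwy.2
      apply hxy
      apply Prod.ext
      · rw [h2, h4, this]
      · rw [h1, h3]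
    refine ⟨hab, ?_, w, hwx, hwy⟩
    refine hzF.1.2 a (hxz.2.1 (by rw [ha]; simp)) b (hyz.2.1 (by rw [hb]; simp)) hab
  -- the face
  set f : Finset (V × ℕ) := (AP_fin hB m).toFinset.filter fun a => ∃ x ∈ X, x.2 = {a} with hf
  have hmf : ∀ a, a ∈ f ↔ ∃ x ∈ X, x.2 = {a} := by
    intro a
    rw [hf, Finset.mem_filter, Set.Finite.mem_toFinset]
    constructor
    · exact fun h => h.2
    · rintro ⟨x, hx, hxa⟩
      refine ⟨?_, x, hx, hxa⟩
      obtain ⟨b, hb, _, h1, _⟩ := hvert x (hX hx)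
      have : a = b := Finset.singleton_injective (hxa.symm.trans h1)
      rwa [this]
  have hfAP : ∀ a ∈ f, a ∈ AP Φ A B m := fun a ha => by
    rw [hf, Finset.mem_filter, Set.Finite.mem_toFinset] at ha
    exact ha.1
  have hfF : f ∈ F := by
    refine ⟨⟨hfAP, ?_⟩, ?_⟩
    · intro a ha b hb hab
      obtain ⟨x, hx, hxa⟩ := (hmf a).1 ha
      obtain ⟨y, hy, hyb⟩ := (hmf b).1 hb
      have hxy : x ≠ y := by
        rintro rfl
        exact hab (Finset.singleton_injective (hxa.symm.trans hyb))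
      exact (hpr x hx y hy hxy a b hxa hyb).2.1
    · intro a ha
      obtain ⟨x, hx, hxa⟩ := (hmf a).1 ha
      obtain ⟨b, _, hb, h1, _⟩ := hvert x (hX hx)
      have : a = b := Finset.singleton_injective (hxa.symm.trans h1)
      rwa [this]
  -- a common element
  have hcommon : ∃ w ∈ Wg Φ, ∀ x ∈ X, w ∈ x.1 := by
    by_cases hAB : A ++ B = []
    · -- there are no roots
      refine ⟨1, one_mem _, fun x hx => ?_⟩
      exfalso
      obtain ⟨a, ha, _⟩ := hvert x (hX hx)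
      have h1 := AP_mem hB ha
      have h2 := hB.span
      rw [hAB] at h2
      have h3 : a.1 ∈ (⊤ : Submodule ℝ V) := trivial
      rw [← h2] at h3
      simp at h3
      exact hB.roots.ne h1 h3
    · have hv : ∀ a : V × ℕ, ∃ v : V, a ∈ f → ∀ x ∈ X, x.2 = {a} → x.1 = Cos Φ A g a.1 v := by
        intro a
        by_cases ha : a ∈ f
        · obtain ⟨x, hx, hxa⟩ := (hmf a).1 ha
          obtain ⟨b, _, _, h1, v, h2, _⟩ := hvert x (hX hx)
          have hba : a = b := Finset.singleton_injective (hxa.symm.trans h1)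
          subst hba
          refine ⟨v, fun _ y hy hya => ?_⟩
          by_cases hxy : x = y
          · rw [← hxy]; exact h2
          · exact absurd rfl (hpr x hx y hy hxy a a hxa hya).1
        · exact ⟨0, fun h => absurd h ha⟩
      choose v hv using hv
      obtain ⟨w, hw, hw2⟩ := hH V Φ (A ++ B) g hAB (bip_std hB) hg (V × ℕ) f
        (fun a => pr A a.1) v (fun a ha => hB.roots.map (prA_mem hB) (AP_mem hB (hfAP a ha)))
        (by
          intro a ha b hb
          obtain ⟨x, hx, hxa⟩ := (hmf a).1 ha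
          obtain ⟨y, hy, hyb⟩ := (hmf b).1 hb
          by_cases hxy : x = y
          · subst hxy
            have hab : a = b := Finset.singleton_injective (hxa.symm.trans hyb)
            subst hab
            obtain ⟨a', _, _, h1, v', h2, w, hw, hwv⟩ := hvert x (hX hx)
            have hba : a = a' := Finset.singleton_injective (hxa.symm.trans h1)
            subst hba
            have : w ∈ x.1 := by rw [h2]; exact ⟨hw, hwv⟩
            rw [hv a ha x hx hxa] at this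
            exact ⟨w, hw, this.2, this.2⟩
          · obtain ⟨_, _, w, h1, h2⟩ := hpr x hx y hy hxy a b hxa hyb
            rw [hv a ha x hx hxa] at h1
            rw [hv b hb y hy hyb] at h2
            exact ⟨w, h1.1, h1.2, h2.2⟩)
      refine ⟨w, hw, fun x hx => ?_⟩
      obtain ⟨a, ha, _, h1, _⟩ := hvert x (hX hx)
      have haf : a ∈ f := (hmf a).2 ⟨x, hx, h1⟩
      rw [hv a haf x hx h1]
      exact ⟨hw, hw2 a haf⟩
  obtain ⟨w, hw, hwX⟩ := hcommon
  refine ⟨((fun h => w * h) '' (Wp Φ (und A B (L f)) : Set (V ≃ₗᵢ[ℝ] V)), f), ⟨hfF, w, hw, rfl⟩,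
    ?_⟩
  have hlf := hL f hfF.1
  ext x
  constructor
  · intro hx
    refine ⟨hX hx, ?_⟩
    obtain ⟨a, ha, _, h1, v, h2, _⟩ := hvert x (hX hx)
    have haf : a ∈ f := (hmf a).2 ⟨x, hx, h1⟩
    refine ⟨by rw [h1]; simpa using haf, ?_⟩
    rintro _ ⟨h, hh, rfl⟩
    have hwx := hwX x hx
    rw [h2] at hwx ⊢
    refine ⟨mul_mem hw hh.1, ?_⟩
    show w (h (g (pr A a.1))) = v
    rw [hh.2 _ (fix_und hB hg hinj hlf (fun y hy => AP_mem hB (hfAP y hy)) haf)]
    exact hwx.2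
  · rintro ⟨hxv, hxz⟩
    obtain ⟨b, hb, _, h1, v, h2, _⟩ := hvert x hxv
    have hbf : b ∈ f := hxz.1 (by rw [h1]; simp)
    obtain ⟨y, hy, hyb⟩ := (hmf b).1 hbf
    obtain ⟨b', _, _, h3, v', h4, _⟩ := hvert y (hX hy)
    have hbb : b = b' := Finset.singleton_injective (hyb.symm.trans h3)
    subst hbb
    have hwx : w ∈ x.1 := hxz.2 ⟨1, one_mem _, mul_one w⟩
    have hwy := hwX y hy
    rw [h2] at hwx
    rw [h4] at hwy
    have hvv : v = v' := hwx.2.symm.trans hwy.2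
    have : x = y := by
      apply Prod.ext
      · rw [h2, h4, hvv]
      · rw [h1, h3]
    rw [this]
    exact hy

theorem t_CPF (hH : S_HEL) (hE : S_EEX) : S_CPF := by
  intro V _ _ Φ A B hB m R L hL
  refine ⟨?_, ?_⟩
  · have := flag hH hE hB m R (fun _ => True) L hL
    have e : {f | f ∈ Face Φ A B m R ∧ ∀ x ∈ f, (fun _ : V × ℕ => True) x} = Face Φ A B m R := by
      ext f
      simp
    rwa [e] at this
  · exact flag hH hE hB m R (fun x => x.1 ∈ Pos Φ A B) L hL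

end Pool.Agent.E8helper14.FL
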